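import Pool.Agent.H18.HX.Targets
import Pool.Agent.H18.HIT.Basic

/-!
Row TWI of hx_modules: the number of preimages for the self-map of the hypersurface.
-/

set_option autoImplicit false

open MvPolynomial
open Pool.Agent.H12.ZD (pmap v O Res DenseOrbit NoInv)
open Pool.Agent.H18.HIT Pool.Agent.H18.HX

namespace Pool.Agent.H20.HX

section

variable {k : Type} [Field k]

theorem ev_hom {n : ℕ} {q : Po n k} {t : ℕ} (h : q.IsHomogeneous t) (s : k) (x : Fin n → k) :
    eval (fun i => s * x i) q = s ^ t * eval x q := by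
  rw [eval_eq, eval_eq, Finset.mul_sum]
  refine Finset.sum_congr rfl fun e he => ?_
  have hd : e.degree = t := by
    by_contra h1
    exact mem_support_iff.1 he (h.coeff_eq_zero h1)
  simp only [mul_pow, Finset.prod_mul_distrib]
  have h1 : ∏ i ∈ e.support, s ^ e i = s ^ t := by
    rw [Finset.prod_pow_eq_pow_sum]
    congr 1
  rw [h1]
  ring

theorem eval_aeval' {L M : ℕ} (l : Fin M → Po L k) (q : Po M k) (x : Fin L → k) :
    eval x (aeval l q) = eval (fun i => eval x (l i)) q := by
  have h : (aeval x : Po L k →ₐ[k] k).comp (aeval l : Po M k →ₐ[k] Po L k) =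
      aeval (fun i => eval x (l i)) := by
    apply algHom_ext
    intro i
    rw [AlgHom.comp_apply, aeval_X, aeval_X]
    rfl
  exact DFunLike.congr_fun h q

theorem zer_scale {L : ℕ} {I : Ideal (Po L k)} (hI : ∀ c ∈ I, ∀ t, homogeneousComponent t c ∈ I)
    {x : Fin L → k} (hx : Zer I x) (s : k) : Zer I fun i => s * x i := by
  intro q hq
  rw [← sum_homogeneousComponent q, map_sum]
  refine Finset.sum_eq_zero fun t _ => ?_
  rw [ev_hom (homogeneousComponent_isHomogeneous t q), hx _ (hI q hq t), mul_zero]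

theorem not_dvd_up {N : ℕ} {P : Po (N + 1) k} (hm : Mny P)
    (hi : Irreducible P) {Δ : Po N k} (h0 : Δ ≠ 0) : ¬ P ∣ up Δ := by
  rintro ⟨A, hA⟩
  have h1 : ∀ q : Po N k, finSuccEquiv k N (up q) = Polynomial.C q := by
    intro q
    unfold up
    induction q using MvPolynomial.induction_on with
    | C a => rw [rename_C, finSuccEquiv_apply, eval₂Hom_C]; rfl
    | add p q hp hq => rw [map_add, map_add, hp, hq, map_add]
    | mul_X p i hp => rw [map_mul, rename_X, map_mul, hp, finSuccEquiv_X_succ, map_mul]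
  have h2 : Polynomial.C Δ = finSuccEquiv k N P * finSuccEquiv k N A := by
    rw [← h1, hA, map_mul]
  have hC : (Polynomial.C Δ : Polynomial (Po N k)) ≠ 0 := by
    rw [Ne, Polynomial.C_eq_zero]
    exact h0
  have h3 : finSuccEquiv k N P ≠ 0 := fun h => hC (by rw [h2, h, zero_mul])
  have h4 : finSuccEquiv k N A ≠ 0 := fun h => hC (by rw [h2, h, mul_zero])
  have h5 := Polynomial.natDegree_mul h3 h4
  rw [← h2, Polynomial.natDegree_C] at h5
  have h6 : finSuccEquiv k N P = 1 := Polynomial.eq_one_of_monic_natDegree_zero hm (by omega)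
  apply hi.not_isUnit
  have h7 : P = 1 := by
    apply (finSuccEquiv k N).injective
    rw [h6, map_one]
  rw [h7]
  exact isUnit_one

/-- an irreducible homogeneous polynomial has positive degree -/
theorem hyp_pos {N r : ℕ} {P : Po (N + 1) k} (h : Hyp P r) : 1 ≤ r := by
  rcases Nat.eq_zero_or_pos r with hr | hr
  · exfalso
    subst hr
    have h1 : P = C (coeff 0 P) := by
      have h2 : P.totalDegree = 0 := by
        have h3 := h.hom.totalDegree h.irr.ne_zero
        exact h3
      exact totalDegree_eq_zero_iff_eq_C.1 h2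
    apply h.irr.not_isUnit
    have h4 : coeff 0 P ≠ 0 := by
      intro h0
      apply h.irr.ne_zero
      rw [h1, h0, map_zero]
    rw [h1]
    exact (isUnit_iff_ne_zero.2 h4).map C
  · exact hr

/-- the roots of `s ^ n = a` -/
theorem exists_roots [IsAlgClosed k] [CharZero k] {n : ℕ} (hn : 1 ≤ n) {a : k} (ha : a ≠ 0) :
    ∃ T : Finset k, T.card = n ∧ ∀ s ∈ T, s ^ n = a := by
  classical
  have hn0 : (n : k) ≠ 0 := by
    rw [Nat.cast_ne_zero]
    omega
  have hsep : (Polynomial.X ^ n - Polynomial.C a : Polynomial k).Separable :=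
    Polynomial.separable_X_pow_sub_C a hn0 ha
  have hne : (Polynomial.X ^ n - Polynomial.C a : Polynomial k) ≠ 0 :=
    Polynomial.X_pow_sub_C_ne_zero (by omega) a
  refine ⟨(Polynomial.X ^ n - Polynomial.C a : Polynomial k).roots.toFinset, ?_, ?_⟩
  · rw [Multiset.toFinset_card_of_nodup (Polynomial.nodup_roots hsep),
      (Polynomial.splits_iff_card_roots.1 (IsAlgClosed.splits _)),
      Polynomial.natDegree_X_pow_sub_C]
  · intro s hs
    rw [Multiset.mem_toFinset, Polynomial.mem_roots hne, Polynomial.IsRoot.def,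
      Polynomial.eval_sub, Polynomial.eval_pow, Polynomial.eval_X, Polynomial.eval_C,
      sub_eq_zero] at hs
    exact hs

end

theorem pf_TWI (hELI : T_ELI) (hPTS : T_PTS) : T_TWI := by
  classical
  intro L N r δ d e k _ _ _ I _ l P Δ g F hPro hIh hg hslf hF hgF hPv
  obtain ⟨hP1, hP2, hP3⟩ := hPTS L N r δ k I l P Δ hPro hIh
  have hr : 1 ≤ r := hyp_pos hPro.hyp
  have hδ : 1 ≤ δ := hr.trans hPro.le
  have hupΔ : (up Δ).IsHomogeneous δ := hPro.dhom.rename_isHomogeneous
  have hup : ∀ q : Po N k, aeval l (up q) = aeval (fun j : Fin N => l j.succ) q := by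
    intro q
    unfold up
    rw [aeval_rename]
    rfl
  have hPp : Prime P := hPro.hyp.irr.prime
  have hΔ : ¬ P ∣ up Δ := not_dvd_up hPro.hyp.mon hPro.hyp.irr hPro.dne
  have hΔI : aeval (fun j : Fin N => l j.succ) Δ ∉ I := by
    rw [← hup, hPro.ker]
    exact hΔ
  have hIp : I.IsPrime := inferInstance
  obtain ⟨c, hc, hcS⟩ := hPv
  obtain ⟨c1, A, hc1, hA⟩ := hELI L k I g hslf _ hΔI
  have hc2 : c * c1 ∉ I := fun h => (hIp.mem_or_mem h).elim hc hc1
  -- the numerator of `c * c1`
  obtain ⟨B, hB⟩ : ∃ B : Po (N + 1) k,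
      aeval (fun j : Fin N => l j.succ) Δ * (c * c1) - aeval l B ∈ I := by
    choose q hq1 hq2 using fun t : ℕ =>
      hPro.den t (homogeneousComponent t (c * c1)) (homogeneousComponent_isHomogeneous t _)
    refine ⟨∑ t ∈ Finset.range ((c * c1).totalDegree + 1), q t, ?_⟩
    have h1 : aeval (fun j : Fin N => l j.succ) Δ * (c * c1) -
        aeval l (∑ t ∈ Finset.range ((c * c1).totalDegree + 1), q t) =
        ∑ t ∈ Finset.range ((c * c1).totalDegree + 1),
          (aeval (fun j : Fin N => l j.succ) Δ * homogeneousComponent t (c * c1) -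
            aeval l (q t)) := by
      rw [Finset.sum_sub_distrib, ← Finset.mul_sum, sum_homogeneousComponent, map_sum]
    rw [h1]
    exact I.sum_mem fun t _ => hq2 t
  have hPB : ¬ P ∣ B := by
    intro h
    rw [← hPro.ker] at h
    have h1 := I.add_mem hB h
    rw [sub_add_cancel] at h1
    rcases hIp.mem_or_mem h1 with h2 | h2
    · exact hΔI h2
    · exact hc2 h2
  refine ⟨B * up Δ, ?_, ?_⟩
  · intro h
    rw [Ideal.mem_span_singleton] at h
    rcases hPp.dvd_or_dvd h with h1 | h1
    · exact hPB h1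
    · exact hΔ h1
  intro y hy hyb
  rw [map_mul] at hyb
  have hyP : eval y P = 0 := hy P (Ideal.mem_span_singleton_self P)
  -- the map to the hypersurface
  obtain ⟨φ, hφ⟩ : ∃ φ : (Fin L → k) → (Fin (N + 1) → k), φ = fun x i => eval x (l i) := ⟨_, rfl⟩
  obtain ⟨D, hD⟩ : ∃ D : (Fin L → k) → k, D = fun x => eval (φ x) (up Δ) := ⟨_, rfl⟩
  have hDx : ∀ x, eval x (aeval (fun j : Fin N => l j.succ) Δ) = D x := by
    intro x
    rw [← hup, eval_aeval', hD, hφ]
  have hupe : ∀ z : Fin (N + 1) → k, eval z (up Δ) = eval (fun j : Fin N => z j.succ) Δ := by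
    intro z
    unfold up
    rw [eval_rename]
    rfl
  obtain ⟨a0, ha0, hay⟩ := hP2 y hyP (by rw [← hupe]; exact right_ne_zero_of_mul hyb)
  have hφa : φ a0 = y := by
    funext i
    rw [hφ]
    exact hay i
  have hca : eval a0 (c * c1) ≠ 0 := by
    have h := ha0 _ hB
    rw [map_sub, map_mul, hDx, eval_aeval', sub_eq_zero] at h
    have h2 : (fun i => eval a0 (l i)) = y := funext hay
    rw [h2] at h
    intro h0
    rw [h0, mul_zero] at h
    exact left_ne_zero_of_mul hyb h.symm
  rw [map_mul] at hca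
  obtain ⟨S0, hS0, hS1, hS2⟩ := hcS a0 ha0 (left_ne_zero_of_mul hca)
  have hstep : ∀ x, Zer I x → ∀ i, D x * φ (pmap g x) i = eval (φ x) (F i) := by
    intro x hx i
    have h := hx _ (hgF i)
    rw [map_sub, map_mul, hDx, eval_aeval, eval_aeval', sub_eq_zero] at h
    rw [hφ]
    exact h
  have hD0 : ∀ x ∈ S0, D x ≠ 0 := by
    intro x hx h0
    have h := (hS1 x hx).1 _ hA
    rw [map_sub, map_mul, hDx, eval_aeval, (hS1 x hx).2, sub_eq_zero, h0, zero_mul] at h
    exact right_ne_zero_of_mul hca h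
  have hdd : 1 ≤ d + δ := by omega
  have hT : ∀ x ∈ S0, ∃ T : Finset k, T.card = d + δ ∧ ∀ s ∈ T, s ^ (d + δ) = (D x)⁻¹ :=
    fun x hx => exists_roots hdd (inv_ne_zero (hD0 x hx))
  choose! T hT1 hT2 using hT
  have hs0 : ∀ x ∈ S0, ∀ s ∈ T x, s ≠ 0 := by
    rintro x hx s hs rfl
    have h := hT2 x hx 0 hs
    rw [zero_pow (by omega)] at h
    exact inv_ne_zero (hD0 x hx) h.symm
  have hφs : ∀ (t : k) (x : Fin L → k) (i : Fin (N + 1)),
      eval (fun j => t * x j) (l i) = t * φ x i := by
    intro t x i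
    rw [ev_hom (hPro.lin i), pow_one, hφ]
  refine ⟨(S0.sigma T).image fun p i => p.2 * φ p.1 i, ?_, ?_⟩
  · rw [Finset.card_image_of_injOn, Finset.card_sigma, Finset.sum_congr rfl hT1,
      Finset.sum_const, hS0, smul_eq_mul, mul_comm]
    rintro ⟨x, s⟩ hp ⟨x', s'⟩ hp' h
    obtain ⟨hx, hs⟩ := Finset.mem_sigma.1 (Finset.mem_coe.1 hp)
    obtain ⟨hx', hs'⟩ := Finset.mem_sigma.1 (Finset.mem_coe.1 hp')
    dsimp only at hx hs hx' hs' h
    have h1 : ∀ i, s * φ x i = s' * φ x' i := fun i => congrFun h i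
    have hs1 : s' ≠ 0 := hs0 x' hx' s' hs'
    have h2 : ∀ i, eval x' (l i) = eval (fun j => (s / s') * x j) (l i) := by
      intro i
      rw [hφs]
      have h3 : eval x' (l i) = φ x' i := by rw [hφ]
      rw [h3]
      have h4 := h1 i
      field_simp
      linear_combination -h4
    have h3 : x' = fun j => (s / s') * x j := by
      refine hP3 x' _ (hS1 x' hx').1 (zer_scale hIh (hS1 x hx).1 _) h2 ?_
      have h4 := hD0 x' hx'
      rw [hD] at h4
      dsimp only at h4
      rw [hupe, hφ] at h4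
      exact h4
    have h4 : x' = x := hS2 x hx x' hx' (s / s') fun i => congrFun h3 i
    subst h4
    have h5 : ∃ i, φ x' i ≠ 0 := by
      by_contra hcon
      push Not at hcon
      apply hD0 x' hx'
      rw [hD]
      dsimp only
      have h6 : φ x' = fun i => (0 : k) * φ x' i := by
        funext i
        rw [zero_mul, hcon i]
      rw [h6, ev_hom hupΔ, zero_pow (by omega), zero_mul]
    obtain ⟨i, hi⟩ := h5
    have h6 : s = s' := mul_right_cancel₀ hi (h1 i)
    rw [h6]
  · intro w hw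
    obtain ⟨⟨x, s⟩, hp, rfl⟩ := Finset.mem_image.1 hw
    obtain ⟨hx, hs⟩ := Finset.mem_sigma.1 hp
    dsimp only at hx hs ⊢
    constructor
    · intro q hq
      obtain ⟨u, rfl⟩ := Ideal.mem_span_singleton.1 hq
      have h1 := hP1 x (hS1 x hx).1
      have h2 : eval (φ x) P = 0 := by
        rw [hφ]
        exact h1
      rw [map_mul, ev_hom hPro.hyp.hom, h2, mul_zero, zero_mul]
    · funext i
      change eval (fun i => s * φ x i) (F i) = y i
      rw [ev_hom (hF i), ← hstep x (hS1 x hx).1 i, (hS1 x hx).2, hφa, hT2 x hx s hs, ← mul_assoc,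
        inv_mul_cancel₀ (hD0 x hx), one_mul]

end Pool.Agent.H20.HX
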